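import Pool.Agent.W518.PC.All

/-!
# Bundles computing the Clifford indices of smooth plane curves (MP_571cb2_ag, Q1)

The curve `C` is described by its function field `K` (its closed points are the normalised discrete
valuations of `K` that are trivial on `ℂ`), vector bundles by their generic fibre `K ^ n` and local
frames, see `Pool/Agent/Helper395/CS/Defs.lean` and `Pool/Agent/Helper395/BC/Defs.lean`. The notions
of the problem (smooth plane curve `IsPlaneCurve`, hyperplane bundle `IsHyperplane`, `gam`,
`Contributes`, `Computes`) are in `Pool/Agent/W518/PC/Defs.lean` and `Pool/Agent/W518/PC/Cliff.lean`.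
-/

set_option autoImplicit false

open Pool.Agent.Helper395.CS hiding genus
open Pool.Agent.Helper395.BC Pool.Agent.W518.PC

namespace Pool.Agent.Results.MP_571cb2_ag.PlaneCurveClifford

/-- Let `C` be a smooth plane curve of degree `δ ≥ 7` (of genus at least `4`, the standing assumption
of the problem), `H` its hyperplane bundle and `n ≥ 1`. A vector bundle of rank `n` computes
`Cliff_n(C)` if and only if it is isomorphic to `H^{⊕ n}`. -/
theorem result (K : Type) [Field K] [Algebra ℂ K] (hK : IsCurve K) (hg : 4 ≤ genus K)
    (δ : ℕ) (hδ : 7 ≤ δ) (F : MvPolynomial (Fin 3) ℂ) (c : Fin 3 → K) (hF : IsPlaneCurve δ F c)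
    (H : LineBundle K) (hH : IsHyperplane c H) (n : ℕ) (hn : 1 ≤ n) (E : Bundle K n) :
    Computes E ↔ ∃ A : GL (Fin n) K, IsBundleIso E (lsum H n) A :=
  answer parts partsN hK (by omega) hδ hF hH hn E

end Pool.Agent.Results.MP_571cb2_ag.PlaneCurveClifford
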